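import Mathlib
import Pool.Agent.Helper967.GGDefs
import Pool.Agent.Helper967.GG13

set_option autoImplicit false

/-! The Diophantine problem for the first Grigorchuk group is undecidable. -/

namespace Pool.Agent.Results.MP_cfea17_lc.Undecidable

open Pool.Agent.Helper967.GrigEq

/-- Solvability of finite systems of equations (with constants) over the first Grigorchuk group
is undecidable. -/
theorem result : ¬ ComputablePred Solvable :=
  Pool.Agent.Helper967.GG.undecidable

end Pool.Agent.Results.MP_cfea17_lc.Undecidable
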